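import Pool.Agent.H43R3.SN.StmtsA

set_option autoImplicit false

open Finset

namespace Pool.Agent.H28R3.SN.RUN

open Pool.Agent.H43R3.SN

section seq

variable (C : Finset ℤ)

/-- The elements of `C` in increasing order. -/
noncomputable def c (i : ℕ) : ℤ := if h : i < C.card then C.orderEmbOfFin rfl ⟨i, h⟩ else 0

theorem c_mem {i : ℕ} (h : i < C.card) : c C i ∈ C := by
  unfold c
  rw [dif_pos h]
  exact Finset.orderEmbOfFin_mem _ _ _

theorem c_lt {i j : ℕ} (hij : i < j) (h : j < C.card) : c C i < c C j := by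
  unfold c
  rw [dif_pos h, dif_pos (lt_trans hij h)]
  exact (C.orderEmbOfFin rfl).strictMono hij

theorem c_le_iff {i j : ℕ} (hi : i < C.card) (hj : j < C.card) : c C i ≤ c C j ↔ i ≤ j := by
  constructor
  · intro h
    by_contra hcon
    have := c_lt C (not_le.1 hcon) hi
    omega
  · intro h
    rcases h.lt_or_eq with h | h
    · exact (c_lt C h hj).le
    · rw [h]

theorem exists_c {x : ℤ} (hx : x ∈ C) : ∃ i < C.card, x = c C i := by
  have h1 : x ∈ Set.range (C.orderEmbOfFin rfl) := by
    rw [Finset.range_orderEmbOfFin]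
    exact hx
  obtain ⟨i, hi⟩ := h1
  refine ⟨i.1, i.2, ?_⟩
  unfold c
  rw [dif_pos i.2]
  exact hi.symm

/-- chain sums -/
noncomputable def S (k : ℕ) : ℤ :=
  if k % 2 = 0 then c C (k / 2) + c C (k / 2 + 1) else c C (k / 2) + c C (k / 2 + 2)

theorem S_even (i : ℕ) : S C (2 * i) = c C i + c C (i + 1) := by
  unfold S
  rw [if_pos (by omega), show 2 * i / 2 = i by omega]

theorem S_odd (i : ℕ) : S C (2 * i + 1) = c C i + c C (i + 2) := by
  unfold S
  rw [if_neg (by omega), show (2 * i + 1) / 2 = i by omega]

theorem S_step {k : ℕ} (h : k + 4 < 2 * C.card) : S C k < S C (k + 1) := by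
  rcases Nat.even_or_odd' k with ⟨i, rfl | rfl⟩
  · rw [S_even, S_odd]
    have := c_lt C (show i + 1 < i + 2 by omega) (by omega)
    omega
  · rw [S_odd, show 2 * i + 1 + 1 = 2 * (i + 1) by ring, S_even]
    have := c_lt C (show i < i + 1 by omega) (by omega)
    have e : i + 1 + 1 = i + 2 := by ring
    rw [e]
    omega

theorem S_mono {k m : ℕ} (hkm : k < m) (h : m + 3 < 2 * C.card) : S C k < S C m := by
  induction m with
  | zero => omega
  | succ m ih =>
    rcases Nat.lt_succ_iff_lt_or_eq.1 hkm with h1 | h1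
    · exact lt_trans (ih h1 (by omega)) (S_step C (by omega))
    · rw [h1]; exact S_step C (by omega)

/-- the set of the chain sums -/
noncomputable def Ch : Finset ℤ := (range (2 * C.card - 3)).image (S C)

theorem card_Ch : (Ch C).card = 2 * C.card - 3 := by
  unfold Ch
  rw [Finset.card_image_of_injOn, card_range]
  intro a ha b hb hab
  rw [coe_range, Set.mem_Iio] at ha hb
  have hab' : S C a = S C b := hab
  by_contra hne
  rcases lt_or_gt_of_ne hne with h | h
  · have := S_mono C h (by omega)
    omega
  · have := S_mono C h (by omega)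
    omega

theorem Ch_sub {Sg : Finset ℤ} (h : ∀ x ∈ C, ∀ y ∈ C, x ≠ y → x + y ∈ Sg) : Ch C ⊆ Sg := by
  intro z hz
  unfold Ch at hz
  rw [mem_image] at hz
  obtain ⟨k, hk, rfl⟩ := hz
  rw [mem_range] at hk
  rcases Nat.even_or_odd' k with ⟨i, rfl | rfl⟩
  · rw [S_even]
    exact h _ (c_mem C (by omega)) _ (c_mem C (by omega)) (c_lt C (by omega) (by omega)).ne
  · rw [S_odd]
    exact h _ (c_mem C (by omega)) _ (c_mem C (by omega)) (c_lt C (by omega) (by omega)).ne

/-- not a chain sum: strictly between `S k` and `S (k+2)`, different from `S (k+1)` -/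
theorem not_Ch {k : ℕ} {z : ℤ} (hk : k + 5 < 2 * C.card) (h1 : S C k < z) (h2 : z < S C (k + 2))
    (h3 : z ≠ S C (k + 1)) : z ∉ Ch C := by
  intro hz
  unfold Ch at hz
  rw [mem_image] at hz
  obtain ⟨m, hm, rfl⟩ := hz
  rw [mem_range] at hm
  rcases lt_trichotomy m (k + 1) with h | h | h
  · have : S C m ≤ S C k := by
      rcases (Nat.lt_succ_iff.1 h).lt_or_eq with h' | h'
      · exact (S_mono C h' (by omega)).le
      · rw [h']
    omega
  · rw [h] at h3; exact h3 rfl
  · have : S C (k + 2) ≤ S C m := by
      rcases (Nat.succ_le_of_lt h).lt_or_eq with h' | h'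
      · exact (S_mono C h' (by omega)).le
      · rw [← h']
    omega

end seq

theorem run : TaskRUN := by
  classical
  intro C Sg E L hsum hcard hbig
  obtain ⟨N, hN⟩ : ∃ N, N = C.card := ⟨_, rfl⟩
  have hNL : (3 * E + 1) * (L + 1) + 6 ≤ N := by
    rw [hN]
    refine le_trans ?_ hbig
    nlinarith
  have hN4 : 7 ≤ N := by
    have : 1 ≤ (3 * E + 1) * (L + 1) := Nat.mul_pos (by omega) (by omega)
    omega
  have hX : (Sg \ Ch C).card ≤ E := by
    rw [card_sdiff_of_subset (Ch_sub C hsum), card_Ch]
    omega
  -- bad sets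
  obtain ⟨b1, hb1⟩ : ∃ b1, b1 = (range (N - 3)).filter
    (fun i => c C i + c C (i + 3) ≠ c C (i + 1) + c C (i + 2)) := ⟨_, rfl⟩
  have hb1c : b1.card ≤ E := by
    refine le_trans (card_le_card_of_injOn (fun i => c C i + c C (i + 3)) ?_ ?_) hX
    · intro i hi
      rw [mem_coe, hb1, mem_filter, mem_range] at hi
      obtain ⟨hi1, hi2⟩ := hi
      rw [mem_coe, mem_sdiff]
      change c C i + c C (i + 3) ∈ Sg ∧ c C i + c C (i + 3) ∉ Ch C
      have l01 := c_lt C (show i < i + 1 by omega) (by omega)
      have l23 := c_lt C (show i + 2 < i + 3 by omega) (by omega)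
      refine ⟨hsum _ (c_mem C (by omega)) _ (c_mem C (by omega))
        (c_lt C (show i < i + 3 by omega) (by omega)).ne, ?_⟩
      apply not_Ch C (k := 2 * i + 1) (by omega)
      · rw [S_odd]; omega
      · rw [show 2 * i + 1 + 2 = 2 * (i + 1) + 1 by ring, S_odd,
          show i + 1 + 2 = i + 3 by ring]; omega
      · rw [show 2 * i + 1 + 1 = 2 * (i + 1) by ring, S_even,
          show i + 1 + 1 = i + 2 by ring]
        exact hi2
    · intro i hi j hj hij
      rw [mem_coe, hb1, mem_filter, mem_range] at hi hj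
      simp only at hij
      by_contra hne
      rcases lt_or_gt_of_ne hne with h | h
      · have h1 := c_lt C h (by omega)
        have h2 := c_lt C (show i + 3 < j + 3 by omega) (by omega)
        omega
      · have h1 := c_lt C h (by omega)
        have h2 := c_lt C (show j + 3 < i + 3 by omega) (by omega)
        omega
  obtain ⟨b2, hb2⟩ : ∃ b2, b2 = (range (N - 4)).filter
    (fun i => c C i + c C (i + 3) = c C (i + 1) + c C (i + 2) ∧
      c C (i + 1) + c C (i + 4) = c C (i + 2) + c C (i + 3) ∧
      c C (i + 2) - c C (i + 1) ≠ c C (i + 3) - c C (i + 2)) := ⟨_, rfl⟩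
  have hb2c : b2.card ≤ E := by
    refine le_trans (card_le_card_of_injOn (fun i => c C i + c C (i + 4)) ?_ ?_) hX
    · intro i hi
      rw [mem_coe, hb2, mem_filter, mem_range] at hi
      obtain ⟨hi1, hi2, hi3, hi4⟩ := hi
      rw [mem_coe, mem_sdiff]
      change c C i + c C (i + 4) ∈ Sg ∧ c C i + c C (i + 4) ∉ Ch C
      have l01 := c_lt C (show i < i + 1 by omega) (by omega)
      have l12 := c_lt C (show i + 1 < i + 2 by omega) (by omega)
      have l23 := c_lt C (show i + 2 < i + 3 by omega) (by omega)
      have l34 := c_lt C (show i + 3 < i + 4 by omega) (by omega)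
      refine ⟨hsum _ (c_mem C (by omega)) _ (c_mem C (by omega))
        (c_lt C (show i < i + 4 by omega) (by omega)).ne, ?_⟩
      apply not_Ch C (k := 2 * (i + 1)) (by omega)
      · rw [S_even, show i + 1 + 1 = i + 2 by ring]; omega
      · rw [show 2 * (i + 1) + 2 = 2 * (i + 2) by ring, S_even,
          show i + 2 + 1 = i + 3 by ring]; omega
      · rw [S_odd, show i + 1 + 2 = i + 3 by ring]
        intro h
        apply hi4
        omega
    · intro i hi j hj hij
      rw [mem_coe, hb2, mem_filter, mem_range] at hi hj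
      simp only at hij
      by_contra hne
      rcases lt_or_gt_of_ne hne with h | h
      · have h1 := c_lt C h (by omega)
        have h2 := c_lt C (show i + 4 < j + 4 by omega) (by omega)
        omega
      · have h1 := c_lt C h (by omega)
        have h2 := c_lt C (show j + 4 < i + 4 by omega) (by omega)
        omega
  obtain ⟨b3, hb3⟩ : ∃ b3, b3 = (range (N - 4)).filter (fun i => i + 1 ∈ b1) := ⟨_, rfl⟩
  have hb3c : b3.card ≤ E := by
    refine le_trans (card_le_card_of_injOn (fun i => i + 1) ?_ ?_) hb1c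
    · intro i hi
      rw [mem_coe, hb3, mem_filter] at hi
      exact hi.2
    · intro i _ j _ hij
      simpa using hij
  obtain ⟨bad, hbad⟩ : ∃ bad, bad = b1 ∪ b3 ∪ b2 := ⟨_, rfl⟩
  have hbadc : bad.card ≤ 3 * E := by
    rw [hbad]
    have h1 := card_union_le (b1 ∪ b3) b2
    have h2 := card_union_le b1 b3
    omega
  have good : ∀ i, i < N - 4 → i ∉ bad →
      c C (i + 2) - c C (i + 1) = c C (i + 3) - c C (i + 2) := by
    intro i hi hni
    rw [hbad, mem_union, mem_union] at hni
    push Not at hni
    obtain ⟨⟨h1, h3⟩, h2⟩ := hni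
    rw [hb1, mem_filter, mem_range] at h1
    rw [hb3, mem_filter, mem_range, hb1, mem_filter, mem_range] at h3
    rw [hb2, mem_filter, mem_range] at h2
    by_contra hne
    have e1 : c C i + c C (i + 3) = c C (i + 1) + c C (i + 2) := by
      by_contra h
      exact h1 ⟨by omega, h⟩
    have e2 : c C (i + 1) + c C (i + 4) = c C (i + 2) + c C (i + 3) := by
      by_contra h
      exact h3 ⟨hi, by omega, h⟩
    exact h2 ⟨hi, e1, e2, hne⟩
  -- a free block
  obtain ⟨b, hb, hfree⟩ : ∃ b < 3 * E + 1, ∀ i, b * (L + 1) ≤ i → i ≤ b * (L + 1) + L → i ∉ bad := by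
    by_contra hcon
    push Not at hcon
    choose! f hf1 hf2 hf3 using hcon
    have : (range (3 * E + 1)).card ≤ bad.card := by
      refine card_le_card_of_injOn f (fun b hb => ?_) (fun b hb b' hb' hbb => ?_)
      · exact hf3 b (mem_range.1 hb)
      · have hb := mem_range.1 hb
        have hb' := mem_range.1 hb'
        have h1 := hf1 b hb
        have h2 := hf2 b hb
        have h3 := hf1 b' hb'
        have h4 := hf2 b' hb'
        by_contra hne
        rcases lt_or_gt_of_ne hne with h | h
        · have : (b + 1) * (L + 1) ≤ b' * (L + 1) := Nat.mul_le_mul_right _ h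
          rw [add_mul] at this
          omega
        · have : (b' + 1) * (L + 1) ≤ b * (L + 1) := Nat.mul_le_mul_right _ h
          rw [add_mul] at this
          omega
    rw [card_range] at this
    omega
  obtain ⟨p, hp⟩ : ∃ p, p = b * (L + 1) + 1 := ⟨_, rfl⟩
  have hpN : p + L + 4 < N := by
    have : (b + 1) * (L + 1) ≤ (3 * E + 1) * (L + 1) := Nat.mul_le_mul_right _ hb
    rw [add_mul] at this
    omega
  have hgap : ∀ j, j ≤ L → c C (p + j + 1) - c C (p + j) = c C (p + 1) - c C p := by
    intro j
    induction j with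
    | zero => intro _; rfl
    | succ j ih =>
      intro hj
      have h1 := ih (by omega)
      have h2 := good (b * (L + 1) + j) (by omega) (hfree _ (by omega) (by omega))
      rw [show b * (L + 1) + j + 2 = p + j + 1 by omega, show b * (L + 1) + j + 1 = p + j by omega,
        show b * (L + 1) + j + 3 = p + j + 2 by omega] at h2
      rw [show p + (j + 1) + 1 = p + j + 2 by ring, show p + (j + 1) = p + j + 1 by ring]
      rw [← h2]
      exact h1
  have hlin : ∀ j : ℕ, j ≤ L + 1 → c C (p + j) = c C p + j * (c C (p + 1) - c C p) := by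
    intro j
    induction j with
    | zero => intro _; simp
    | succ j ih =>
      intro hj
      have h1 := ih (by omega)
      have h2 := hgap j (by omega)
      rw [show p + (j + 1) = p + j + 1 by ring]
      push_cast
      linarith
  refine ⟨c C p, c C (p + 1) - c C p, ?_, ?_, ?_⟩
  · have := c_lt C (show p < p + 1 by omega) (by omega)
    omega
  · intro j hj
    rw [← hlin j (by omega)]
    exact c_mem C (by omega)
  · intro x hx h1 h2
    obtain ⟨k, hk, rfl⟩ := exists_c C hx
    rw [← hlin L (by omega)] at h2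
    rw [c_le_iff C (by omega) hk] at h1
    rw [c_le_iff C hk (by omega)] at h2
    refine ⟨k - p, by omega, ?_⟩
    rw [← hlin (k - p) (by omega), show p + (k - p) = k by omega]

end Pool.Agent.H28R3.SN.RUN
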